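import Pool.Agent.Helper10.RS.Goals

/-!
Project RS (MP_82322d_al), packet COPL: linear part of the coprime action lemma.
-/

set_option autoImplicit false

open Polynomial

namespace Pool.Agent.Helper16.RS

universe u

open Pool.Agent.Helper10.RS

/-- an element of a ring with `f ^ r = 1` and `(f - 1) ^ m = 0`, `r` a unit, is `1` -/
theorem eq_one_of {k V : Type*} [Field k] [AddCommGroup V] [Module k V] (f : Module.End k V)
    (r m : ℕ) (hr : (r : k) ≠ 0) (h1 : f ^ r = 1) (h2 : (f - 1) ^ m = 0) : f = 1 := by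
  set S : k[X] := ∑ j ∈ Finset.range r, X ^ j with hS
  have hSX : (X - C (1 : k)) * S = X ^ r - 1 := by
    rw [hS, map_one]
    exact mul_geom_sum (X : k[X]) r
  have hcop : IsCoprime ((X - C (1 : k)) ^ m) S := by
    apply IsCoprime.pow_left
    rw [(irreducible_X_sub_C (1 : k)).coprime_iff_not_dvd, dvd_iff_isRoot]
    intro hroot
    apply hr
    have h3 : S.eval 1 = (r : k) := by
      rw [hS, eval_finsetSum]
      simp
    rw [← h3]
    exact hroot
  obtain ⟨a, b, hab⟩ := hcop
  have e1 : aeval f ((X - C (1 : k)) ^ m) = 0 := by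
    rw [map_pow, map_sub, aeval_X, aeval_C, map_one]
    exact h2
  have e2 : aeval f ((X - C (1 : k)) * S) = 0 := by
    rw [hSX, map_sub, map_pow, aeval_X, map_one, h1, sub_self]
  have e3 : aeval f ((a * (X - C (1 : k)) ^ m + b * S) * (X - C (1 : k))) = 0 := by
    have : (a * (X - C (1 : k)) ^ m + b * S) * (X - C (1 : k)) =
        (a * (X - C (1 : k))) * (X - C (1 : k)) ^ m + b * ((X - C (1 : k)) * S) := by ring
    rw [this, map_add, map_mul, map_mul _ b, e1, e2, mul_zero, mul_zero, add_zero]
  rw [hab, one_mul, map_sub, aeval_X, aeval_C, map_one] at e3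
  exact sub_eq_zero.1 e3

theorem lin {Y V : Type*} [Group Y] [AddCommGroup V] [Finite V] (q r : ℕ) [Fact q.Prime]
    [Module (ZMod q) V] (ρ : Y →* Module.End (ZMod q) V) (g : Y) (hr : r.Prime) (hqr : q ≠ r)
    (hg : g ^ r = 1) (hconj : ∀ i : ℕ, 0 < i → i < r → ∃ y : Y, y * g * y⁻¹ = g ^ i)
    (hcard : ¬ q ^ (r - 1) ∣ Nat.card V) : ρ g = 1 := by
  have hq : q.Prime := Fact.out
  by_contra hne
  have : Module.Finite (ZMod q) V := Module.Finite.of_finite
  set f := ρ g with hf
  have hrk : ((r : ℕ) : ZMod q) ≠ 0 := by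
    intro h0
    rw [ZMod.natCast_eq_zero_iff] at h0
    exact hqr ((Nat.prime_dvd_prime_iff_eq hq hr).1 h0)
  have hfr : f ^ r = 1 := by rw [hf, ← map_pow, hg, map_one]
  -- the characteristic polynomials of the powers
  have hch : ∀ i : ℕ, 0 < i → i < r → (f ^ i).charpoly = f.charpoly := by
    intro i h1 h2
    obtain ⟨y, hy⟩ := hconj i h1 h2
    have e1 : ρ y * ρ y⁻¹ = 1 := by rw [← map_mul, mul_inv_cancel, map_one]
    have e2 : ρ y⁻¹ * ρ y = 1 := by rw [← map_mul, inv_mul_cancel, map_one]
    let e : V ≃ₗ[ZMod q] V := LinearEquiv.ofLinearMap (ρ y) (ρ y⁻¹) e1 e2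
    have e3 : f ^ i = e.conj f := by
      rw [hf, ← map_pow, ← hy, map_mul, map_mul]
      rfl
    rw [e3, LinearEquiv.charpoly_conj]
  let K := AlgebraicClosure (ZMod q)
  set PK := f.charpoly.map (algebraMap (ZMod q) K) with hPK
  have hmonic : f.charpoly.Monic := LinearMap.charpoly_monic f
  have hmK : PK.Monic := hmonic.map _
  have hsp : PK.Splits := IsAlgClosed.splits PK
  -- an eigenvalue which is not one
  obtain ⟨ζ, hζ, hζ1⟩ : ∃ ζ : K, PK.IsRoot ζ ∧ ζ ≠ 1 := by
    by_contra hcon
    push Not at hcon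
    apply hne
    have h1 : PK = (X - C (1 : K)) ^ (Multiset.card PK.roots) := by
      have h2 := hsp.eq_prod_roots_of_monic hmK
      have h3 : PK.roots = Multiset.replicate (Multiset.card PK.roots) 1 := by
        rw [Multiset.eq_replicate]
        exact ⟨rfl, fun b hb => hcon b (isRoot_of_mem_roots hb)⟩
      conv_lhs => rw [h2, h3]
      rw [Multiset.map_replicate, Multiset.prod_replicate]
    have h4 : f.charpoly = (X - C (1 : ZMod q)) ^ (Multiset.card PK.roots) := by
      apply map_injective (algebraMap (ZMod q) K) (algebraMap (ZMod q) K).injective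
      rw [Polynomial.map_pow, Polynomial.map_sub, map_X, map_C, map_one]
      exact h1
    have h5 := LinearMap.aeval_self_charpoly f
    rw [h4, map_pow, map_sub, aeval_X, aeval_C, map_one] at h5
    exact eq_one_of f r _ hrk hfr h5
  have hcK : (f.baseChange K).charpoly = PK := LinearMap.charpoly_baseChange f K
  have hev : Module.End.HasEigenvalue (f.baseChange K) ζ := by
    rw [Module.End.hasEigenvalue_iff_isRoot_charpoly, hcK]
    exact hζ
  obtain ⟨v, hv⟩ := hev.exists_hasEigenvector
  have hv0 : v ≠ 0 := hv.2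
  have hζr : ζ ^ r = 1 := by
    have h1 := hv.pow_apply r
    rw [← LinearMap.baseChange_pow, hfr] at h1
    have h2 : (LinearMap.baseChange K (1 : Module.End (ZMod q) V)) v = v := by
      rw [LinearMap.baseChange_one]
      rfl
    rw [h2] at h1
    have h3 : ζ ^ r • v = (1 : K) • v := by
      rw [one_smul]
      exact h1.symm
    exact smul_left_injective K hv0 h3
  have hroots : ∀ i : ℕ, 0 < i → i < r → PK.IsRoot (ζ ^ i) := by
    intro i h1 h2
    have h3 := hv.pow_apply i
    rw [← LinearMap.baseChange_pow] at h3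
    have h4 : Module.End.HasEigenvalue ((f ^ i).baseChange K) (ζ ^ i) := by
      apply Module.End.hasEigenvalue_of_hasEigenvector (x := v)
      rw [Module.End.hasEigenvector_iff, Module.End.mem_eigenspace_iff]
      exact ⟨h3, hv0⟩
    rw [Module.End.hasEigenvalue_iff_isRoot_charpoly, LinearMap.charpoly_baseChange, hch i h1 h2]
      at h4
    exact h4
  -- the powers are different
  have hrf : Fact r.Prime := ⟨hr⟩
  have hord : orderOf ζ = r := orderOf_eq_prime hζr hζ1
  have hinj : Set.InjOn (fun i : ℕ => ζ ^ i) (Finset.Ioo 0 r : Set ℕ) := by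
    intro i hi j hj hij
    have h1 := Finset.mem_Ioo.1 hi
    have h2 := Finset.mem_Ioo.1 hj
    have h3 : ζ ^ i = ζ ^ j := hij
    exact pow_injOn_Iio_orderOf (by simpa [hord] using h1.2) (by simpa [hord] using h2.2) h3
  have hle : r - 1 ≤ Module.finrank (ZMod q) V := by
    classical
    have h1 : (Finset.Ioo 0 r).image (fun i : ℕ => ζ ^ i) ⊆ PK.roots.toFinset := by
      intro x hx
      obtain ⟨i, hi, rfl⟩ := Finset.mem_image.1 hx
      have h2 := Finset.mem_Ioo.1 hi
      rw [Multiset.mem_toFinset, mem_roots hmK.ne_zero]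
      exact hroots i h2.1 h2.2
    have h2 := Finset.card_le_card h1
    rw [Finset.card_image_of_injOn hinj, Nat.card_Ioo] at h2
    have h3 : PK.roots.toFinset.card ≤ PK.natDegree :=
      (Multiset.toFinset_card_le _).trans (card_roots' PK)
    have h4 : PK.natDegree = Module.finrank (ZMod q) V := by
      rw [hPK, hmonic.natDegree_map, LinearMap.charpoly_natDegree]
    omega
  apply hcard
  rw [Module.natCard_eq_pow_finrank (K := ZMod q), Nat.card_zmod]
  exact pow_dvd_pow q hle

/-! ### the group part -/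

/-- the central elements `z` with `z ^ q = 1` -/
def om (U : Type*) [Group U] (q : ℕ) : Subgroup U where
  carrier := {z | (∀ u : U, u * z = z * u) ∧ z ^ q = 1}
  one_mem' := ⟨fun u => by rw [mul_one, one_mul], one_pow _⟩
  mul_mem' := by
    rintro a b ⟨ha, ha'⟩ ⟨hb, hb'⟩
    refine ⟨fun u => by rw [← mul_assoc, ha u, mul_assoc, hb u, mul_assoc], ?_⟩
    have h1 : Commute a b := hb a
    rw [h1.mul_pow, ha', hb', one_mul]
  inv_mem' := by
    rintro a ⟨ha, ha'⟩
    refine ⟨fun u => ?_, by rw [inv_pow, ha', inv_one]⟩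
    have h1 : Commute u a := ha u
    exact h1.inv_right

theorem mem_om {U : Type*} [Group U] {q : ℕ} {z : U} :
    z ∈ om U q ↔ (∀ u : U, u * z = z * u) ∧ z ^ q = 1 := Iff.rfl

theorem om_normal (U : Type*) [Group U] (q : ℕ) : (om U q).Normal := by
  constructor
  intro z hz u
  have h1 := (mem_om.1 hz).1 u
  rw [h1, mul_assoc, mul_inv_cancel, mul_one]
  exact hz

section act
variable {Y U : Type*} [Group Y] [Group U] [MulDistribMulAction Y U]

theorem smul_om {q : ℕ} (y : Y) {z : U} (hz : z ∈ om U q) : y • z ∈ om U q := by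
  refine mem_om.2 ⟨fun u => ?_, ?_⟩
  · have h1 := (mem_om.1 hz).1 (y⁻¹ • u)
    have h2 := congrArg (fun x => y • x) h1
    simpa only [smul_mul', smul_inv_smul] using h2
  · rw [← smul_pow', (mem_om.1 hz).2, smul_one]

/-- the action on the quotient by an invariant normal subgroup -/
abbrev qact (Z : Subgroup U) [Z.Normal] (h : ∀ (y : Y) (z : U), z ∈ Z → y • z ∈ Z) :
    MulDistribMulAction Y (U ⧸ Z) where
  smul y x := QuotientGroup.map Z Z (MulDistribMulAction.toMonoidHom U y) (fun z hz => h y z hz) x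
  one_smul x := by
    induction x using QuotientGroup.induction_on with
    | H x =>
      change (((1 : Y) • x : U) : U ⧸ Z) = x
      rw [one_smul]
  mul_smul y y' x := by
    induction x using QuotientGroup.induction_on with
    | H x =>
      change (((y * y') • x : U) : U ⧸ Z) = ((y • (y' • x) : U) : U ⧸ Z)
      rw [mul_smul]
  smul_one y := map_one _
  smul_mul y x x' := map_mul _ x x'

/-- the action on an invariant subgroup -/
def sact (Z : Subgroup U) (h : ∀ (y : Y) (z : U), z ∈ Z → y • z ∈ Z) (y : Y) : Z →* Z where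
  toFun z := ⟨y • z.1, h y z.1 z.2⟩
  map_one' := Subtype.ext (smul_one y)
  map_mul' a b := Subtype.ext (smul_mul' y a.1 b.1)

end act

/-- the linear part for a commutative group of exponent `q` -/
theorem triv_comm {Y Z : Type*} [Group Y] [AddCommGroup Z] [Finite Z]
    (q r : ℕ) (g : Y) (hq : q.Prime) (hr : r.Prime) (hqr : q ≠ r) (hg : g ^ r = 1)
    (hconj : ∀ i : ℕ, 0 < i → i < r → ∃ y : Y, y * g * y⁻¹ = g ^ i)
    (hcard : ¬ q ^ (r - 1) ∣ Nat.card Z) (hexp : ∀ z : Z, q • z = 0)
    (φ : Y → Z →+ Z) (h1 : ∀ z, φ 1 z = z) (h2 : ∀ y y' z, φ (y * y') z = φ y (φ y' z)) (z : Z) :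
    φ g z = z := by
  have : Fact q.Prime := ⟨hq⟩
  let _ : Module (ZMod q) Z := AddCommGroup.zmodModule (n := q) hexp
  let ρ : Y →* Module.End (ZMod q) Z :=
    { toFun := fun y => AddMonoidHom.toZModLinearMap q (φ y)
      map_one' := LinearMap.ext fun x => h1 x
      map_mul' := fun y y' => LinearMap.ext fun x => h2 y y' x }
  have h3 := lin q r ρ g hr hqr hg hconj hcard
  exact LinearMap.congr_fun h3 z

theorem triv_om {Y U : Type*} [Group Y] [Group U] [Finite U] [MulDistribMulAction Y U]
    (q r : ℕ) (g : Y) (hq : q.Prime) (hr : r.Prime) (hqr : q ≠ r) (hg : g ^ r = 1)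
    (hconj : ∀ i : ℕ, 0 < i → i < r → ∃ y : Y, y * g * y⁻¹ = g ^ i)
    (hcard : ¬ q ^ (r - 1) ∣ Nat.card U) (z : U) (hz : z ∈ om U q) : g • z = z := by
  have hinv : ∀ (y : Y) (z : U), z ∈ om U q → y • z ∈ om U q := fun y z hz => smul_om y hz
  let _ : CommGroup (om U q) := { (inferInstance : Group (om U q)) with
    mul_comm := fun a b => Subtype.ext ((mem_om.1 b.2).1 a.1) }
  have h1 := triv_comm q r g hq hr hqr hg hconj (Z := Additive (om U q))
    (fun h2 => hcard (h2.trans (Subgroup.card_subgroup_dvd_card (om U q))))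
    (fun z => by
      have h3 : (Additive.toMul z) ^ q = 1 := Subtype.ext (mem_om.1 (Additive.toMul z).2).2
      exact congrArg Additive.ofMul h3)
    (fun y => MonoidHom.toAdditive (sact (om U q) hinv y))
    (fun z => by
      have h3 : sact (om U q) hinv 1 (Additive.toMul z) = Additive.toMul z :=
        Subtype.ext (one_smul Y (Additive.toMul z).1)
      exact congrArg Additive.ofMul h3)
    (fun y y' z => by
      have h3 : sact (om U q) hinv (y * y') (Additive.toMul z) =
          sact (om U q) hinv y (sact (om U q) hinv y' (Additive.toMul z)) :=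
        Subtype.ext (mul_smul y y' (Additive.toMul z).1)
      exact congrArg Additive.ofMul h3)
    (Additive.ofMul ⟨z, hz⟩)
  exact congrArg (fun w : Additive (om U q) => ((Additive.toMul w : om U q) : U)) h1

theorem aux {Y : Type u} [Group Y] (q r : ℕ) (g : Y) (hq : q.Prime) (hr : r.Prime)
    (hqr : q ≠ r) (hg : g ^ r = 1)
    (hconj : ∀ i : ℕ, 0 < i → i < r → ∃ y : Y, y * g * y⁻¹ = g ^ i) :
    ∀ (n : ℕ) (U : Type u) [Group U] [Finite U] [MulDistribMulAction Y U], Nat.card U ≤ n →
      IsPGroup q U → ¬ q ^ (r - 1) ∣ Nat.card U → ∀ x : U, g • x = x := by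
  intro n
  induction n with
  | zero =>
    intro U _ _ _ h1
    have := Nat.card_pos (α := U)
    omega
  | succ n ih =>
    intro U _ _ _ hn hU hcard x
    rcases subsingleton_or_nontrivial U with hs | hnt
    · exact Subsingleton.elim _ _
    have hF : Fact q.Prime := ⟨hq⟩
    have hnorm := om_normal U q
    have hinv : ∀ (y : Y) (z : U), z ∈ om U q → y • z ∈ om U q := fun y z hz => smul_om y hz
    -- `om U q` is not trivial
    have hcZ : 1 < Nat.card (om U q) := by
      have h1 : Nontrivial (Subgroup.center U) := hU.center_nontrivial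
      have h2 : q ∣ Nat.card (Subgroup.center U) := by
        obtain ⟨m, hm0, hm⟩ := (hU.to_subgroup (Subgroup.center U)).nontrivial_iff_card.1 h1
        rw [hm]
        exact dvd_pow_self _ (by omega)
      obtain ⟨c, hc⟩ := exists_prime_orderOf_dvd_card' q h2
      have h3 : (c : U) ∈ om U q := by
        refine mem_om.2 ⟨fun u => Subgroup.mem_center_iff.1 c.2 u, ?_⟩
        have h4 : c ^ q = 1 := by rw [← hc, pow_orderOf_eq_one]
        have h5 := congrArg (Subtype.val) h4
        simpa using h5
      rw [Finite.one_lt_card_iff_nontrivial]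
      refine ⟨⟨c, h3⟩, 1, ?_⟩
      intro h4
      have h5 : c = 1 := Subtype.ext (congrArg (fun w : om U q => (w : U)) h4)
      rw [h5, orderOf_one] at hc
      exact hq.one_lt.ne hc
    have hquot : Nat.card (U ⧸ om U q) ≤ n := by
      have h1 := Subgroup.card_eq_card_quotient_mul_card_subgroup (om U q)
      have h2 : 0 < Nat.card (U ⧸ om U q) := Nat.card_pos
      nlinarith
    let _ := qact (Y := Y) (om U q) hinv
    have h1 := ih (U ⧸ om U q) hquot (hU.to_quotient _)
      (fun h2 => hcard (h2.trans (Subgroup.card_quotient_dvd_card _))) (x : U ⧸ om U q)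
    have h2 : ((g • x : U) : U ⧸ om U q) = (x : U ⧸ om U q) := h1
    obtain ⟨z, hz, hzx⟩ : ∃ z ∈ om U q, g • x = x * z := by
      refine ⟨x⁻¹ * (g • x), ?_, by rw [mul_inv_cancel_left]⟩
      exact QuotientGroup.eq.1 h2.symm
    have hgz : g • z = z := triv_om q r g hq hr hqr hg hconj hcard z hz
    have hpow : ∀ j : ℕ, g ^ j • x = x * z ^ j := by
      intro j
      induction j with
      | zero => rw [pow_zero, one_smul, pow_zero, mul_one]
      | succ j ih2 =>
        rw [pow_succ', mul_smul, ih2, smul_mul', hzx, smul_pow', hgz, pow_succ', mul_assoc]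
    have h3 := hpow r
    rw [hg, one_smul] at h3
    have h4 : z ^ r = 1 := by
      have h5 : x * 1 = x * z ^ r := by rw [mul_one]; exact h3
      exact (mul_left_cancel h5).symm
    have h5 : z ^ q = 1 := (mem_om.1 hz).2
    have h6 : z = 1 := by
      have h7 : orderOf z ∣ Nat.gcd q r := Nat.dvd_gcd (orderOf_dvd_of_pow_eq_one h5)
        (orderOf_dvd_of_pow_eq_one h4)
      rw [(Nat.coprime_primes hq hr).2 hqr] at h7
      exact orderOf_eq_one_iff.1 (Nat.dvd_one.1 h7)
    rw [hzx, h6, mul_one]

/-- packet COPL -/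
theorem p_copl : COPL.{u} := by
  intro Y U _ _ _ _ _ q r g hq hr hqr hU hg hconj hcard x
  exact aux q r g hq hr hqr (by rw [← hg, pow_orderOf_eq_one]) hconj (Nat.card U) U le_rfl hU
    hcard x

end Pool.Agent.Helper16.RS
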