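import Pool.Agent.Helper90.RS.DUAL

/-!
# Packet RS-SUB (MP_fc6b1e_nt): the local conditions define a subgroup
-/

namespace Pool.Agent.Helper16.RS

open NumberField Polynomial Module IsDedekindDomain TensorProduct Pool.Agent.Helper51.SigLeo
  Pool.Agent.Helper38.RS WithZero

section loc

variable {M : Type} [Field M] [NumberField M] (v : HeightOneSpectrum (𝓞 M))

theorem val_one_of {z : M} (h : v.valuation M (z - 1) < 1) : v.valuation M z = 1 := by
  have h1 : z = 1 + (z - 1) := by ring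
  rw [h1, Valuation.map_one_add_of_lt _ h]

theorem locSq_mul {x x' : M} (h : LocSq v x) (h' : LocSq v x') : LocSq v (x * x') := by
  obtain ⟨y, hy⟩ := h
  obtain ⟨y', hy'⟩ := h'
  refine ⟨y * y', ?_⟩
  have h1 : x * x' * (y * y') ^ 2 - 1 = (x * y ^ 2) * (x' * y' ^ 2 - 1) + (x * y ^ 2 - 1) := by
    ring
  rw [h1]
  refine lt_of_le_of_lt (Valuation.map_add _ _ _) (max_lt ?_ hy)
  rw [map_mul, val_one_of v hy, one_mul]
  exact hy'

theorem locSq_of_sq_mul {c x : M} (h : LocSq v (c ^ 2 * x)) : LocSq v x := by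
  obtain ⟨y, hy⟩ := h
  refine ⟨c * y, ?_⟩
  have h1 : x * (c * y) ^ 2 - 1 = c ^ 2 * x * y ^ 2 - 1 := by ring
  rw [h1]
  exact hy

theorem locSq_sq {c : M} (hc : c ≠ 0) : LocSq v (c ^ 2) := by
  refine ⟨c⁻¹, ?_⟩
  have h1 : c ^ 2 * c⁻¹ ^ 2 - 1 = 0 := by field_simp; ring
  rw [h1, map_zero]
  exact zero_lt_one

theorem tame_one (a : M) : Tame v a 1 := Or.inl (by
  have := locSq_sq v (one_ne_zero : (1 : M) ≠ 0)
  simpa using this)

theorem tame_mul {a x x' : M} (h : Tame v a x) (h' : Tame v a x') : Tame v a (x * x') := by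
  rcases h with h | h <;> rcases h' with h' | h'
  · exact Or.inl (locSq_mul v h h')
  · refine Or.inr ?_
    have := locSq_mul v h h'
    have h1 : x * -(a * x') = -(a * (x * x')) := by ring
    rwa [h1] at this
  · refine Or.inr ?_
    have := locSq_mul v h h'
    have h1 : -(a * x) * x' = -(a * (x * x')) := by ring
    rwa [h1] at this
  · refine Or.inl (locSq_of_sq_mul v (c := a) ?_)
    have := locSq_mul v h h'
    have h1 : -(a * x) * -(a * x') = a ^ 2 * (x * x') := by ring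
    rwa [h1] at this

theorem tame_inv {a x : M} (_hx : x ≠ 0) (h : Tame v a x) : Tame v a x⁻¹ := by
  rcases h with ⟨y, hy⟩ | ⟨y, hy⟩
  · refine Or.inl ⟨x * y, ?_⟩
    have h1 : x⁻¹ * (x * y) ^ 2 - 1 = x * y ^ 2 - 1 := by field_simp
    rw [h1]
    exact hy
  · refine Or.inr ⟨x * y, ?_⟩
    have h1 : -(a * x⁻¹) * (x * y) ^ 2 - 1 = -(a * x) * y ^ 2 - 1 := by field_simp
    rw [h1]
    exact hy

theorem ordv_inv (x : M) : ordv v x⁻¹ = -ordv v x := by
  unfold ordv
  rw [map_inv₀, WithZero.log_inv]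

end loc

section sig

variable {k : Type} [NormedField k] {M : Type} [Field M] (L : IwasawaLog 2 k)
  (T : Set (M →+* k))

theorem L_one : L.toFun 1 = 0 := by
  have := L.map_mul 1 1
  rw [mul_one] at this
  simpa using this

theorem L_inv (u : kˣ) : L.toFun u⁻¹ = -L.toFun u := by
  have := L.map_mul u u⁻¹
  rw [mul_inv_cancel, L_one] at this
  rw [eq_neg_iff_add_eq_zero, add_comm]
  exact this.symm

theorem sigSmall_one (N : ℕ) : SigSmall L T N 1 := by
  intro τ _
  refine ⟨by simp, ?_⟩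
  rw [map_one, L_one, norm_zero]
  positivity

theorem sigSmall_mul [IsUltrametricDist k] {N : ℕ} {x y : Mˣ} (hx : SigSmall L T N x)
    (hy : SigSmall L T N y) : SigSmall L T N (x * y) := by
  intro τ hτ
  obtain ⟨h1, h2⟩ := hx τ hτ
  obtain ⟨h3, h4⟩ := hy τ hτ
  refine ⟨by rw [Units.val_mul, map_mul, norm_mul, h1, h3, one_mul], ?_⟩
  rw [map_mul, L.map_mul]
  exact (IsUltrametricDist.norm_add_le_max _ _).trans (max_le h2 h4)

theorem sigSmall_inv {N : ℕ} {x : Mˣ} (hx : SigSmall L T N x) : SigSmall L T N x⁻¹ := by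
  intro τ hτ
  obtain ⟨h1, h2⟩ := hx τ hτ
  refine ⟨by rw [Units.val_inv_eq_inv_val, map_inv₀, norm_inv, h1, inv_one], ?_⟩
  rw [map_inv, L_inv, norm_neg]
  exact h2

theorem locSig_mul [IsUltrametricDist k] {x x' : Mˣ} (hx : LocSig L T x) (hx' : LocSig L T x') :
    LocSig L T (x * x') := by
  intro N
  obtain ⟨y, hy⟩ := hx N
  obtain ⟨y', hy'⟩ := hx' N
  refine ⟨y * y', ?_⟩
  have h1 : x * x' * (y * y') ^ 2 = (x * y ^ 2) * (x' * y' ^ 2) := by
    rw [mul_pow]
    exact mul_mul_mul_comm _ _ _ _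
  rw [h1]
  exact sigSmall_mul L T hy hy'

theorem locSig_inv {x : Mˣ} (hx : LocSig L T x) : LocSig L T x⁻¹ := by
  intro N
  obtain ⟨y, hy⟩ := hx N
  refine ⟨y⁻¹, ?_⟩
  have h1 : x⁻¹ * y⁻¹ ^ 2 = (x * y ^ 2)⁻¹ := by
    rw [mul_inv, inv_pow]
  rw [h1]
  exact sigSmall_inv L T hy

theorem locSig_sq (y : Mˣ) : LocSig L T (y ^ 2) := by
  intro N
  refine ⟨y⁻¹, ?_⟩
  have h1 : y ^ 2 * y⁻¹ ^ 2 = 1 := by
    rw [← mul_pow, mul_inv_cancel, one_pow]
  rw [h1]
  exact sigSmall_one L T N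

end sig

/-- **S_SUB** -/
theorem s_sub : S_SUB := by
  intro k _ _ L K M _ _ _ _ _ δ T a S hS
  have hne : ∀ x : Mˣ, (x : M) ≠ 0 := fun x ↦ x.ne_zero
  let G : Subgroup Mˣ :=
    { carrier := {x | LSat L (above T) S (algebraMap K M a) x}
      mul_mem' := by
        intro x y hx hy
        refine ⟨fun w hw he ↦ ?_, fun w hw ho ↦ ?_, locSig_mul L _ hx.sig hy.sig⟩
        · rw [Units.val_mul, Pool.Agent.Helper90.RS.ordv_mul w (hne x) (hne y)]
          exact (hx.even w hw he).add (hy.even w hw he)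
        · rw [Units.val_mul]
          exact tame_mul w (hx.tame w hw ho) (hy.tame w hw ho)
      one_mem' := by
        refine ⟨fun w _ _ ↦ ?_, fun w _ _ ↦ ?_, fun N ↦ ⟨1, ?_⟩⟩
        · simp [ordv]
        · rw [Units.val_one]
          exact tame_one w _
        · rw [one_pow, mul_one]
          exact sigSmall_one L _ N
      inv_mem' := by
        intro x hx
        refine ⟨fun w hw he ↦ ?_, fun w hw ho ↦ ?_, locSig_inv L _ hx.sig⟩
        · rw [Units.val_inv_eq_inv_val, ordv_inv]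
          exact (hx.even w hw he).neg
        · rw [Units.val_inv_eq_inv_val]
          exact tame_inv w (hne x) (hx.tame w hw ho) }
  refine ⟨G, fun x ↦ Iff.rfl, ?_, ?_⟩
  · rintro x ⟨y, rfl⟩
    refine ⟨fun w _ _ ↦ ?_, fun w _ _ ↦ Or.inl ?_, locSig_sq L _ y⟩
    · rw [Units.val_pow_eq_pow_val, pow_two,
        Pool.Agent.Helper90.RS.ordv_mul w (hne y) (hne y)]
      exact ⟨_, rfl⟩
    · rw [Units.val_pow_eq_pow_val]
      exact locSq_sq w (hne y)
  · intro x hx
    have hδx : ((Units.map ((δ : M →+* M) : M →* M) x : Mˣ) : M) = δ (x : M) := rfl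
    -- the prime `δ⁻¹ w`
    have key : ∀ w ∈ S, ∃ w' ∈ S, ∀ y : M, w.valuation M (δ y) = w'.valuation M y := by
      intro w hw
      obtain ⟨w', hw'⟩ := Pool.Agent.Helper90.RS.exists_conj (K := K) δ.symm w
      refine ⟨w', hS.stable w hw w' ⟨δ.symm, hw'⟩, fun y ↦ ?_⟩
      rw [← hw' (δ y), AlgEquiv.symm_apply_apply]
    have hord : ∀ w w' : HeightOneSpectrum (𝓞 M),
        (∀ y : M, w.valuation M (δ y) = w'.valuation M y) → ∀ y, ordv w (δ y) = ordv w' y := by
      intro w w' h y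
      unfold ordv
      rw [h]
    have hloc : ∀ w w' : HeightOneSpectrum (𝓞 M),
        (∀ y : M, w.valuation M (δ y) = w'.valuation M y) → ∀ z, LocSq w' z →
          LocSq w (δ z) := by
      rintro w w' h z ⟨y, hy⟩
      refine ⟨δ y, ?_⟩
      have h1 : δ z * δ y ^ 2 - 1 = δ (z * y ^ 2 - 1) := by
        rw [map_sub, map_mul, map_pow, map_one]
      rw [h1, h]
      exact hy
    refine ⟨fun w hw he ↦ ?_, fun w hw ho ↦ ?_, ?_⟩
    · obtain ⟨w', hw', h⟩ := key w hw
      rw [hδx, hord w w' h]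
      refine hx.even w' hw' ?_
      rw [← hord w w' h, AlgEquiv.commutes]
      exact he
    · obtain ⟨w', hw', h⟩ := key w hw
      have ho' : ¬ Even (ordv w' (algebraMap K M a)) := by
        rw [← hord w w' h, AlgEquiv.commutes]
        exact ho
      rw [hδx]
      rcases hx.tame w' hw' ho' with h1 | h1
      · exact Or.inl (hloc w w' h _ h1)
      · refine Or.inr ?_
        have h2 := hloc w w' h _ h1
        rwa [map_neg, map_mul, AlgEquiv.commutes] at h2
    · intro N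
      obtain ⟨y, hy⟩ := hx.sig N
      refine ⟨Units.map ((δ : M →+* M) : M →* M) y, ?_⟩
      intro τ hτ
      have hτ' : τ.comp (δ : M →+* M) ∈ above (M := M) T := by
        show (τ.comp (δ : M →+* M)).comp (algebraMap K M) ∈ T
        have h3 : (τ.comp (δ : M →+* M)).comp (algebraMap K M) = τ.comp (algebraMap K M) := by
          ext z
          show τ (δ (algebraMap K M z)) = τ (algebraMap K M z)
          rw [AlgEquiv.commutes]
        rw [h3]
        exact hτ
      obtain ⟨h4, h5⟩ := hy _ hτ'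
      rw [← map_pow, ← map_mul]
      exact ⟨h4, h5⟩

end Pool.Agent.Helper16.RS
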